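import Pool.Agent.H53.MW.Targets
import Pool.Agent.H15.FLX.GDX

/-!
# Board mwk_modules (MP_c62aed_lc), row GDM: scopes with `H1` are good
-/

set_option autoImplicit false

namespace Pool.Agent.H1.MWK

open Finset
open Pool.Agent.H53.MC (Clause Falsified SatBy Line Circuit U Viol toC scope Ins cnt H1 Covers InR
  Bad cf)
open Pool.Agent.H15.FLX (Scopes Signs clause cnf Few en idx FG BR card_mono Few_mono)
open Pool.Agent.H53.MW

theorem pf_GDM (hCLS : Pool.Agent.H15.FLX.T_CLS) (hABM : T_ABM) (hARM : T_ARM) (hCRM : T_CRM) :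
    T_GDM := by
  intro n k M μ γ t w d s₀ q hP e hH
  obtain ⟨hinj, -, hcnf⟩ := hCLS (μ := μ) e
  have h2 : ∀ (𝓠 : Finset (Line n)) (N s : ℕ) (f : ℕ → (Fin n → Bool) → ℝ) (i : ℕ) (a : ℝ),
      𝓠.card ≤ 2 ^ t → 1 ≤ s → i < N →
      Few γ n t (N * s) (Nat.card {x // f i x < a})
        (Nat.card {σ : Signs n M μ // DerivesR (cnf e σ) f 𝓠 t s i a})
        (Nat.card (Signs n M μ)) := by
    intro 𝓠 N s f i a hq hs hi
    refine Few_mono (card_mono fun σ h => ?_)
      (hARM (en e) γ t w d s₀ q hinj hH hP 𝓠 N s f i a hq hs hi)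
    rw [(hcnf σ).2] at h
    exact h
  refine ⟨?_, h2, ?_⟩
  · intro 𝓛 𝓠 s L hq hs
    refine Few_mono (card_mono fun σ h => ?_)
      (hABM (en e) γ t w d s₀ q hinj hH hP 𝓛 𝓠 s L hq hs)
    rw [(hcnf σ).2] at h
    exact h
  · intro s h hC i a hi
    have h3 := h2 ∅ s 1 (fun j x => h j (SatBy x)) i a (by simp) le_rfl hi
    rw [mul_one] at h3
    exact Few_mono (card_mono fun σ ha =>
      hCRM (cnf e σ) t s h (le_trans (by norm_num) hP.t2) hC i a hi ha) h3

end Pool.Agent.H1.MWK
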